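import Pool.Agent.Work.MP_85f59e_co.U.Gap

namespace Pool.Agent.Work.MP_85f59e_co.U

open Finset Function Pool.Agent.Work.MP_85f59e_co
open scoped BigOperators

variable {d q : ℕ}

lemma alt_odd (u s : Fin q) (t : ℕ) : alt u s (2 * t + 1) = s := by
  unfold alt
  rw [if_neg]
  rw [Nat.not_even_iff_odd]
  exact ⟨t, rfl⟩

lemma punct_partner' {f : (Fin d → Fin q) → Fin q} (hf : Latin f) {J : Finset (Fin d)}
    {z : Fin d → Fin q} {u s : Fin q} (hP : Punct f J z u s) {T : Finset (Fin d)} (hT : T ⊆ J)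
    {t : ℕ} (hT2 : T.card = 2 * t + 2) {i : Fin d} (hi : i ∈ J) :
    pos f (T.piecewise (pos f z s) z) s i = if i ∈ T then z i else pos f z s i := by
  apply pos_eq hf
  split_ifs with hiT
  · rw [piecewise_update_mem, hP.2.2.2 _ ((erase_subset _ _).trans hT)
      (by rw [← card_pos, card_erase_of_mem hiT]; omega), card_erase_of_mem hiT, hT2]
    exact alt_odd u s t
  · rw [← piecewise_insert, hP.2.2.2 _ (insert_subset hi hT) (insert_nonempty _ _),
      card_insert_of_notMem hiT, hT2]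
    exact alt_odd u s (t + 1)

lemma punct_unique' {f : (Fin d → Fin q) → Fin q} (hf : Latin f) {J : Finset (Fin d)}
    {z z' : Fin d → Fin q} {u s : Fin q} (hP : Punct f J z u s) (hP' : Punct f J z' u s)
    {T T' : Finset (Fin d)} {t : ℕ} (hT : T ⊆ J) (hT2 : T.card = 2 * t + 2) (hT' : T' ⊆ J)
    (hT2' : T'.card = 2 * t + 2)
    (h : T.piecewise (pos f z s) z = T'.piecewise (pos f z' s) z') : z = z' ∧ T = T' := by
  have hzz : z = z' := by
    let U : Finset (Fin d) := J.filter fun i => z' i ≠ z i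
    have hU : U.piecewise (pos f z s) z = z' := by
      funext i
      have hi := congrFun h i
      by_cases hiJ : i ∈ J
      · have e1 := punct_partner' hf hP hT hT2 hiJ
        have e2 := punct_partner' hf hP' hT' hT2' hiJ
        rw [h, e2] at e1
        by_cases hiU : i ∈ U
        · rw [piecewise_eq_of_mem _ _ _ hiU]
          have hne : z' i ≠ z i := (mem_filter.1 hiU).2
          by_cases a1 : i ∈ T <;> by_cases a2 : i ∈ T' <;>
            simp only [piecewise, a1, a2, if_true, if_false] at hi e1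
          · exact absurd e1 hne
          · exact hi
          · exact e1.symm
          · exact absurd hi.symm hne
        · rw [piecewise_eq_of_notMem _ _ _ hiU]
          by_contra hne
          exact hiU (mem_filter.2 ⟨hiJ, fun e => hne e.symm⟩)
      · have a1 : i ∉ T := fun a => hiJ (hT a)
        have a2 : i ∉ T' := fun a => hiJ (hT' a)
        have a3 : i ∉ U := fun a => hiJ (mem_filter.1 a).1
        simp only [piecewise, a1, a2, a3, if_false] at hi ⊢
        exact hi
    by_contra hne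
    have hUne : U.Nonempty := by
      rw [nonempty_iff_ne_empty]
      intro hU0
      rw [hU0, piecewise_empty] at hU
      exact hne hU
    have := hP.2.2.2 U (filter_subset _ _) hUne
    rw [hU] at this
    rcases alt_mem u s U.card with e | e
    · exact hP'.1 (this.trans e)
    · exact hP'.2.1 (this.trans e)
  subst hzz
  refine ⟨rfl, ?_⟩
  ext i
  have hi := congrFun h i
  have hne := pos_ne hf (Ne.symm hP.2.1) i
  by_cases a1 : i ∈ T <;> by_cases a2 : i ∈ T' <;>
    simp only [piecewise, a1, a2, if_true, if_false] at hi ⊢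
  · exact absurd hi hne
  · exact absurd hi.symm hne

lemma punct_count' {f : (Fin d → Fin q) → Fin q} (hf : Latin f) (J : Finset (Fin d)) (u s : Fin q)
    (t : ℕ) : (∑ z, ind (Punct f J z u s)) * (J.card.choose (2 * t + 2) : ℝ) ≤ (q : ℝ) ^ d := by
  classical
  have h1 : ∑ z, ind (Punct f J z u s) = ((univ.filter fun z => Punct f J z u s).card : ℝ) := by
    rw [card_filter]
    push_cast
    refine sum_congr rfl fun z _ => ?_
    unfold ind
    congr
  rw [h1, ← card_powersetCard (2 * t + 2) J]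
  have : ((univ.filter fun z => Punct f J z u s) ×ˢ powersetCard (2 * t + 2) J).card
      ≤ (univ : Finset (Fin d → Fin q)).card := by
    apply card_le_card_of_injOn (fun p => p.2.piecewise (pos f p.1 s) p.1) (fun _ _ => mem_univ _)
    rintro ⟨z, T⟩ hp ⟨z', T'⟩ hp' h
    simp only [coe_product, coe_filter, mem_univ, true_and, Set.mem_prod, Set.mem_ofPred_eq,
      mem_coe, mem_powersetCard] at hp hp'
    obtain ⟨rfl, rfl⟩ := punct_unique' hf hp.1 hp'.1 hp.2.1 hp.2.2 hp'.2.1 hp'.2.2 h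
    rfl
  rw [card_product] at this
  simp only [card_univ, Fintype.card_pi, Fintype.card_fin, prod_const] at this
  exact_mod_cast this

lemma P4' {f : (Fin d → Fin q) → Fin q} (hf : Latin f) (J : Finset (Fin d)) {r t : ℕ}
    (hr : 2 * t + 2 ≤ r) :
    ∑ z, ∑ u ∈ univ.erase (f z), 𝔼 π, ind (Avail π f z u) * ind (Ev π J r f z u)
      ≤ (1 / 2) ^ d * (q : ℝ) ^ d * ((q : ℝ) ^ 2 / (r.choose (2 * t + 2) : ℝ)) := by
  have hc : (0 : ℝ) < (r.choose (2 * t + 2) : ℝ) := by exact_mod_cast Nat.choose_pos hr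
  let c : Finset (Fin d) → ℝ := fun J0 =>
    (1 / 2) ^ d * ((1 / 3) ^ J0.card * (2 / 3) ^ (J.card - J0.card))
  have hcn : ∀ J0, 0 ≤ c J0 := fun J0 => by positivity
  calc _ ≤ ∑ z, ∑ u ∈ univ.erase (f z), ∑ s, ∑ J0 ∈ J.powerset,
          ind (r ≤ J0.card) * ind (Punct f J0 z u s) * c J0 :=
        sum_le_sum fun z _ => sum_le_sum fun u hu =>
          P4_aux hf (ne_of_mem_erase hu) J (by omega)
    _ ≤ ∑ z, ∑ u, ∑ s, ∑ J0 ∈ J.powerset, ind (r ≤ J0.card) * ind (Punct f J0 z u s) * c J0 :=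
        sum_le_sum fun z _ => sum_le_sum_of_subset_of_nonneg (subset_univ _) fun u _ _ =>
          sum_nonneg fun s _ => sum_nonneg fun J0 _ =>
            mul_nonneg (mul_nonneg (ind_nonneg _) (ind_nonneg _)) (hcn _)
    _ = ∑ u, ∑ s, ∑ J0 ∈ J.powerset, ind (r ≤ J0.card) * (∑ z, ind (Punct f J0 z u s)) * c J0 := by
        rw [sum_comm]
        refine sum_congr rfl fun u _ => ?_
        rw [sum_comm]
        refine sum_congr rfl fun s _ => ?_
        rw [sum_comm]
        refine sum_congr rfl fun J0 _ => ?_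
        rw [mul_sum, sum_mul]
    _ ≤ ∑ _u : Fin q, ∑ _s : Fin q, ∑ J0 ∈ J.powerset,
          (q : ℝ) ^ d / (r.choose (2 * t + 2) : ℝ) * c J0 := by
        refine sum_le_sum fun u _ => sum_le_sum fun s _ => sum_le_sum fun J0 _ => ?_
        refine mul_le_mul_of_nonneg_right ?_ (hcn _)
        by_cases h : r ≤ J0.card
        · rw [ind_of h, one_mul, le_div_iff₀ hc]
          refine le_trans ?_ (punct_count' hf J0 u s t)
          refine mul_le_mul_of_nonneg_left ?_ (sum_nonneg fun _ _ => ind_nonneg _)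
          exact_mod_cast Nat.choose_le_choose (2 * t + 2) h
        · rw [ind_of_not h, zero_mul]; positivity
    _ = _ := by
        have : ∑ J0 ∈ J.powerset, (q : ℝ) ^ d / (r.choose (2 * t + 2) : ℝ) * c J0
            = (q : ℝ) ^ d / (r.choose (2 * t + 2) : ℝ) * (1 / 2) ^ d := by
          simp only [c]
          rw [← mul_sum, ← mul_sum, sum_pow_mul_eq_add_pow]
          norm_num
        rw [this]
        simp only [sum_const, card_univ, Fintype.card_fin, nsmul_eq_mul]
        ring

/-- evidence in some large set of inner directions -/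
def EvU (π : Fin d → Equiv.Perm (Fin q)) (I : Finset (Fin d)) (w r : ℕ)
    (g : (Fin d → Fin q) → Fin q) (z : Fin d → Fin q) (u : Fin q) : Prop :=
  ∃ J ∈ powersetCard w I, Ev π J r g z u

lemma EvU_of_agree {π : Fin d → Equiv.Perm (Fin q)} {g g' : (Fin d → Fin q) → Fin q}
    {z : Fin d → Fin q} (h : ∀ y, key π y < key π z → g y = g' y) {I : Finset (Fin d)} {w r : ℕ}
    {u : Fin q} (hE : EvU π I w r g z u) : EvU π I w r g' z u := by
  obtain ⟨J, hJ, hE⟩ := hE
  exact ⟨J, hJ, Ev_of_agree h hE⟩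

lemma false_evidence {f : (Fin d → Fin q) → Fin q} (hf : Latin f) (I : Finset (Fin d)) (w : ℕ)
    {r t : ℕ} (hr : 2 * t + 2 ≤ r) :
    ∑ z, ∑ u ∈ univ.erase (f z), 𝔼 π, ind (Avail π f z u) * ind (EvU π I w r f z u)
      ≤ ((q : ℝ) / 2) ^ d * ((I.card.choose w : ℝ) * ((q : ℝ) ^ 2 / (r.choose (2 * t + 2) : ℝ))) := by
  have h1 : ∀ (π : Fin d → Equiv.Perm (Fin q)) z u, ind (Avail π f z u) * ind (EvU π I w r f z u)
      ≤ ∑ J ∈ powersetCard w I, ind (Avail π f z u) * ind (Ev π J r f z u) := by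
    intro π z u
    rw [← mul_sum]
    refine mul_le_mul_of_nonneg_left ?_ (ind_nonneg _)
    by_cases h : EvU π I w r f z u
    · obtain ⟨J, hJ, hE⟩ := h
      calc _ ≤ ind (Ev π J r f z u) := ind_mono fun _ => hE
        _ ≤ _ := single_le_sum (f := fun J => ind (Ev π J r f z u)) (fun _ _ => ind_nonneg _) hJ
    · rw [ind_of_not h]
      exact sum_nonneg fun _ _ => ind_nonneg _
  calc _ ≤ ∑ z, ∑ u ∈ univ.erase (f z), ∑ J ∈ powersetCard w I,
          𝔼 π, ind (Avail π f z u) * ind (Ev π J r f z u) := by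
        refine sum_le_sum fun z _ => sum_le_sum fun u _ => ?_
        rw [← expect_sum_comm]
        exact expect_le_expect fun π _ => h1 π z u
    _ = ∑ J ∈ powersetCard w I, ∑ z, ∑ u ∈ univ.erase (f z),
          𝔼 π, ind (Avail π f z u) * ind (Ev π J r f z u) := by
        rw [sum_comm (s := powersetCard w I)]
        exact sum_congr rfl fun z _ => sum_comm
    _ ≤ ∑ _J ∈ powersetCard w I,
          (1 / 2) ^ d * (q : ℝ) ^ d * ((q : ℝ) ^ 2 / (r.choose (2 * t + 2) : ℝ)) :=
        sum_le_sum fun J _ => P4' hf J hr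
    _ = _ := by
        rw [sum_const, card_powersetCard, nsmul_eq_mul, div_pow, div_pow]
        ring

/-- the third cost term at one cell -/
lemma third_cell {f : (Fin d → Fin q) → Fin q} (hf : Latin f) (z : Fin d → Fin q)
    {O I : Finset (Fin d)} (hOI : ∀ i ∈ O, ∀ j ∈ I, i < j) {k : ℕ} (hk0 : 0 < k)
    (hk : 2 * k ≤ O.card) {w m : ℕ} (hwm : w + m ≤ I.card) (r : ℕ) :
    ∑ s ∈ univ.erase (f z), 𝔼 π, ind (Avail π f z s) * ind (¬ EvU π I w r f z (f z))
      ≤ (1 / 2) ^ d * (1 + q * ((2 / 3) ^ m + 2 ^ I.card * q * (2 / 3) ^ k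
        + 2 ^ r * (5 / 6) ^ w)) := by
  set η : ℝ := (2 / 3) ^ m + 2 ^ I.card * q * (2 / 3) ^ k + 2 ^ r * (5 / 6) ^ w with hη
  have a1 : (0 : ℝ) ≤ (2 / 3) ^ m + 2 ^ I.card * q * (2 / 3) ^ k := by positivity
  have a2 : (0 : ℝ) ≤ 2 ^ r * (5 / 6) ^ w := by positivity
  let P : Fin q → Prop := fun s => NF f I w z s ∧ ∀ s', s' ≠ f z → NF f I w z s' → s' = s
  have h1 : ∀ s ∈ univ.erase (f z), 𝔼 π, ind (Avail π f z s) * ind (¬ EvU π I w r f z (f z))
      ≤ (1 / 2) ^ d * (ind (P s) + η) := by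
    intro s hs
    have hs' := ne_of_mem_erase hs
    have n1 := ind_nonneg (P s)
    have hle : 𝔼 π, ind (Avail π f z s) * ind (¬ EvU π I w r f z (f z))
        ≤ 𝔼 π, ind (Avail π f z s) :=
      expect_le_expect fun π _ => mul_le_of_le_one_right (ind_nonneg _) (ind_le_one _)
    by_cases c1 : NF f I w z s
    swap
    · refine (hle.trans (gap_bound hf hs' hOI hk0 hk hwm c1)).trans ?_
      gcongr (1 / 2) ^ d * ?_
      linarith only [hη, n1, a2]
    by_cases c2 : P s
    · refine (hle.trans (P1 hf hs')).trans ?_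
      rw [ind_of c2]
      exact le_mul_of_one_le_right (by positivity) (by linarith only [hη, a1, a2])
    obtain ⟨s', e1, ⟨J, hJ, hJw, hF⟩, e3⟩ : ∃ s', s' ≠ f z ∧ NF f I w z s' ∧ s' ≠ s := by
      by_contra hc
      push Not at hc
      exact c2 ⟨c1, hc⟩
    calc _ ≤ 𝔼 π, ind (Avail π f z s) * ind (¬ Ev π J r f z (f z)) :=
          expect_le_expect fun π _ => mul_le_mul_of_nonneg_left
            (ind_mono fun a b => a ⟨J, mem_powersetCard.2 ⟨hJ, hJw⟩, b⟩) (ind_nonneg _)
      _ ≤ _ := P3 hf hs' e1 e3 hF r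
      _ ≤ _ := by
          rw [hJw]
          gcongr (1 / 2) ^ d * ?_
          linarith only [hη, n1, a1]
  refine (sum_le_sum h1).trans ?_
  rw [← mul_sum, sum_add_distrib]
  gcongr (1 / 2) ^ d * (?_ + ?_)
  · by_cases h : ∃ s ∈ univ.erase (f z), P s
    · obtain ⟨s, hs, h1⟩ := h
      rw [sum_eq_single_of_mem s hs]
      · exact ind_le_one _
      · intro s' hs' hne
        exact ind_of_not fun h' => hne (h1.2 s' (ne_of_mem_erase hs') h'.1)
    · rw [sum_eq_zero]
      · norm_num
      · intro s hs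
        exact ind_of_not fun h' => h ⟨s, hs, h'⟩
  · calc _ ≤ ∑ _s : Fin q, η := sum_le_sum_of_subset_of_nonneg (subset_univ _)
          fun _ _ _ => by linarith only [hη, a1, a2]
      _ = _ := by simp

lemma main_boundU (hq : 2 ≤ q) {O I : Finset (Fin d)} (hOI : ∀ i ∈ O, ∀ j ∈ I, i < j) {k : ℕ}
    (hk0 : 0 < k) (hk : 2 * k ≤ O.card) {w m : ℕ} (hwm : w + m ≤ I.card) {r t : ℕ}
    (hr : 2 * t + 2 ≤ r) {K : ℝ} (hK : 0 ≤ K) :
    ((latinSet d q).card : ℝ) ≤ Real.exp (((q : ℝ) / 2) ^ d *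
      (Real.log (2 + K) * ((I.card.choose w : ℝ) * ((q : ℝ) ^ 2 / (r.choose (2 * t + 2) : ℝ)))
        + q * (1 / (1 + K)) + Real.log 2 * (1 + q * ((2 / 3) ^ m + 2 ^ I.card * q * (2 / 3) ^ k
        + 2 ^ r * (5 / 6) ^ w)))) := by
  have hq0 : (0 : ℝ) < q := by exact_mod_cast (by omega : 0 < q)
  have hl : 0 ≤ Real.log 2 := Real.log_nonneg one_le_two
  have hA : 0 ≤ Real.log (2 + K) := Real.log_nonneg (by linarith)
  have hκ : 0 ≤ 1 / (1 + K) := by positivity
  refine predictor_bound (by omega) (Ω := Fin d → Equiv.Perm (Fin q)) id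
    (fun ω g z u => 1 + K * ind (EvU ω I w r g z u))
    (fun ω f z s => Real.log (2 + K) * (ind (Avail ω f z s) * ind (EvU ω I w r f z s))
      + 1 / (1 + K) * ind (Avail ω f z s)
      + Real.log 2 * (ind (Avail ω f z s) * ind (¬ EvU ω I w r f z (f z)))) ?_ ?_ ?_ _ ?_
  · intro ω g z u
    have := mul_nonneg hK (ind_nonneg (EvU ω I w r g z u))
    linarith only [this]
  · intro ω g g' z h
    funext u
    simp only [id] at h
    rw [ind_congr ⟨EvU_of_agree h, EvU_of_agree fun y hy => (h y hy).symm⟩]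
  · intro ω f z s _ _
    simp only [id]
    by_cases h : Avail ω f z s
    swap
    · simp [ind_of_not h]
    simp only [ind_of h, one_mul, mul_one]
    have n1 := mul_nonneg hl (ind_nonneg (¬ EvU ω I w r f z (f z)))
    have n2 := mul_nonneg hK (ind_nonneg (EvU ω I w r f z (f z)))
    by_cases h1 : EvU ω I w r f z s
    · rw [ind_of h1, mul_one, mul_one]
      calc 1 + (1 + K) / (1 + K * ind (EvU ω I w r f z (f z))) ≤ 1 + (1 + K) := by
            gcongr
            exact div_le_self (by linarith only [hK]) (by linarith)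
        _ = Real.exp (Real.log (2 + K)) := by rw [Real.exp_log (by linarith only [hK])]; ring
        _ ≤ _ := Real.exp_le_exp.2 (by linarith only [hκ, n1])
    · rw [ind_of_not h1, mul_zero, mul_zero, add_zero, zero_add]
      by_cases h2 : EvU ω I w r f z (f z)
      · rw [ind_of h2, ind_of_not (not_not.2 h2), mul_one, mul_zero, add_zero, add_comm]
        exact Real.add_one_le_exp _
      · rw [ind_of_not h2, ind_of h2, mul_zero, add_zero, mul_one]
        calc (1 : ℝ) + 1 / 1 = Real.exp (Real.log 2) := by rw [Real.exp_log two_pos]; norm_num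
          _ ≤ _ := Real.exp_le_exp.2 (by linarith only [hκ])
  · intro f hf
    simp only [expect_add_distrib, ← mul_expect, sum_add_distrib, ← mul_sum]
    have t1 := false_evidence hf I w hr
    have hcard : ∀ x : ℝ, ∑ _z : Fin d → Fin q, (1 / 2) ^ d * x = ((q : ℝ) / 2) ^ d * x := by
      intro x
      simp only [sum_const, card_univ, Fintype.card_fin, nsmul_eq_mul, Fintype.card_pi,
        prod_const]
      push_cast
      rw [div_pow, div_pow]; ring
    have t2 : ∑ z, ∑ s ∈ univ.erase (f z), 𝔼 ω : Fin d → Equiv.Perm (Fin q),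
        ind (Avail ω f z s) ≤ ((q : ℝ) / 2) ^ d * q := by
      rw [← hcard]
      refine sum_le_sum fun z _ => ?_
      calc _ ≤ ∑ _s ∈ univ.erase (f z), (1 / 2 : ℝ) ^ d :=
            sum_le_sum fun s hs => P1 hf (ne_of_mem_erase hs)
        _ ≤ ∑ _s : Fin q, (1 / 2 : ℝ) ^ d :=
            sum_le_sum_of_subset_of_nonneg (subset_univ _) fun _ _ _ => by positivity
        _ = _ := by simp [mul_comm]
    have t3 : ∑ z, ∑ s ∈ univ.erase (f z), 𝔼 ω : Fin d → Equiv.Perm (Fin q),
        ind (Avail ω f z s) * ind (¬ EvU ω I w r f z (f z))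
        ≤ ((q : ℝ) / 2) ^ d * (1 + q * ((2 / 3) ^ m + 2 ^ I.card * q * (2 / 3) ^ k
          + 2 ^ r * (5 / 6) ^ w)) := by
      rw [← hcard]
      exact sum_le_sum fun z _ => third_cell hf z hOI hk0 hk hwm r
    have b1 := mul_le_mul_of_nonneg_left t1 hA
    have b2 := mul_le_mul_of_nonneg_left t2 hκ
    have b3 := mul_le_mul_of_nonneg_left t3 hl
    linarith only [b1, b2, b3]

end Pool.Agent.Work.MP_85f59e_co.U
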