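import Pool.Agent.Work.MP_85f59e_co.Asymp

namespace Pool.Agent.Work.MP_85f59e_co.U

open Finset Function Pool.Agent.Work.MP_85f59e_co
open scoped BigOperators

section table

variable {G R : Type} [AddCommGroup G] [AddCommGroup R]

open Classical in
/-- a Latin square on `(G × ZMod 2) ⊕ R` that agrees with the group table off `|R|` transversals -/
noncomputable def op (e : R → G) : (G × ZMod 2) ⊕ R → (G × ZMod 2) ⊕ R → (G × ZMod 2) ⊕ R
  | .inl (i, a), .inl (j, b) =>
      if j - i ∈ Set.range e then
        (if a = b then .inl (i + j, a) else .inr (Function.invFun e (j - i)))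
      else .inl (i + j, a + b)
  | .inl (i, a), .inr t => .inl (i + i + e t, a + 1)
  | .inr t, .inl (j, b) => .inl (j + j - e t, b + 1)
  | .inr t, .inr t' => .inr (t + t')

lemma z2a : ∀ a b c : ZMod 2, a ≠ b → a ≠ c → b = c := by decide
lemma z2b : ∀ a : ZMod 2, a ≠ a + 1 := by decide

omit [AddCommGroup G] in
lemma inv_eq {e : R → G} {x y : G} (hx : x ∈ Set.range e) (hy : y ∈ Set.range e)
    (h : Function.invFun e x = Function.invFun e y) : x = y := by
  rw [← Function.invFun_eq hx, h, Function.invFun_eq hy]

lemma op_left {e : R → G} (he : Function.Injective e) (h2 : ∀ x y : G, x + x = y + y → x = y)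
    (x : (G × ZMod 2) ⊕ R) : Function.Injective (op e x) := by
  have mix : ∀ (i j : G) (a b : ZMod 2) (t : R),
      op e (.inl (i, a)) (.inl (j, b)) ≠ op e (.inl (i, a)) (.inr t) := by
    intro i j a b t h
    simp only [op] at h
    split_ifs at h with c1 c2
    · simp only [Sum.inl.injEq, Prod.mk.injEq] at h
      exact z2b a h.2
    · simp only [Sum.inl.injEq, Prod.mk.injEq] at h
      exact c1 ⟨t, by rw [eq_sub_iff_add_eq]; exact add_left_cancel (a := i) (by rw [h.1]; abel)⟩
  intro y y' h
  rcases x with ⟨i, a⟩ | t <;> rcases y with ⟨j, b⟩ | u <;> rcases y' with ⟨j', b'⟩ | u'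
  · simp only [op] at h
    split_ifs at h with c1 c2 c3 c4 c5 c6 c7 c8 <;>
      simp only [Sum.inl.injEq, Sum.inr.injEq, Prod.mk.injEq, add_right_inj] at h ⊢
    · exact ⟨h.1, by rw [← c2, ← c4]⟩
    · exact absurd (h.1 ▸ c1) c3
    · exact ⟨sub_left_injective (inv_eq c1 c5 h), z2a a b b' c2 c6⟩
    · exact absurd (h.1 ▸ c7) c1
    · exact h
  · exact absurd h (mix _ _ _ _ _)
  · exact absurd h.symm (mix _ _ _ _ _)
  · simp only [op, Sum.inl.injEq, Prod.mk.injEq, add_right_inj, and_true] at h
    rw [he h]
  · simp only [op, Sum.inl.injEq, Prod.mk.injEq, sub_left_inj, add_left_inj] at h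
    rw [h2 _ _ h.1, h.2]
  · simp [op] at h
  · simp [op] at h
  · simp only [op, Sum.inr.injEq, add_right_inj] at h
    rw [h]

lemma op_right {e : R → G} (he : Function.Injective e) (h2 : ∀ x y : G, x + x = y + y → x = y)
    (y : (G × ZMod 2) ⊕ R) : Function.Injective fun x => op e x y := by
  have mix : ∀ (i j : G) (a b : ZMod 2) (t : R),
      op e (.inl (i, a)) (.inl (j, b)) ≠ op e (.inr t) (.inl (j, b)) := by
    intro i j a b t h
    simp only [op] at h
    split_ifs at h with c1 c2
    · simp only [Sum.inl.injEq, Prod.mk.injEq] at h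
      exact z2b b (c2.symm.trans h.2)
    · simp only [Sum.inl.injEq, Prod.mk.injEq] at h
      refine c1 ⟨t, ?_⟩
      rw [eq_sub_iff_add_eq]
      exact add_right_cancel (b := j) (by rw [add_assoc, h.1]; abel)
  intro x x' h
  rcases y with ⟨j, b⟩ | t <;> rcases x with ⟨i, a⟩ | u <;> rcases x' with ⟨i', a'⟩ | u'
  · simp only [op] at h
    split_ifs at h with c1 c2 c3 c4 c5 c6 c7 c8 <;>
      simp only [Sum.inl.injEq, Sum.inr.injEq, Prod.mk.injEq, add_left_inj] at h ⊢
    · exact h
    · exact absurd (h.1 ▸ c1) c3
    · exact ⟨sub_right_injective (inv_eq c1 c5 h), z2a b a a' (Ne.symm c2) (Ne.symm c6)⟩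
    · exact absurd (h.1 ▸ c7) c1
    · exact h
  · exact absurd h (mix _ _ _ _ _)
  · exact absurd h.symm (mix _ _ _ _ _)
  · simp only [op, Sum.inl.injEq, Prod.mk.injEq, sub_right_inj, and_true] at h
    rw [he h]
  · simp only [op, Sum.inl.injEq, Prod.mk.injEq, add_left_inj] at h
    rw [h2 _ _ h.1, h.2]
  · simp [op] at h
  · simp [op] at h
  · simp only [op, Sum.inr.injEq, add_left_inj] at h
    rw [h]

lemma op_good {e : R → G} {i j : G} (h : j - i ∉ Set.range e) (a b : ZMod 2) :
    op e (.inl (i, a)) (.inl (j, b)) = .inl (i + j, a + b) := by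
  simp only [op, if_neg h]

lemma chain [Fintype G] [Fintype R] {e : R → G} (he : Function.Injective e)
    (h2 : ∀ x y : G, x + x = y + y → x = y) (d : ℕ) :
    ∃ f : (Fin d → (G × ZMod 2) ⊕ R) → (G × ZMod 2) ⊕ R,
      (∀ z i, Function.Injective fun a => f (update z i a)) ∧
      ∃ S : Finset (Fin d → G), (Fintype.card G - Fintype.card R) ^ d ≤ S.card ∧
        ∀ v ∈ S, ∀ a : Fin d → ZMod 2,
          f (fun k => .inl (v k, a k)) = .inl (∑ k, v k, ∑ k, a k) := by
  classical
  induction d with
  | zero => exact ⟨fun _ => .inl (0, 0), fun _ i => i.elim0, univ, by simp, by simp⟩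
  | succ d ih =>
    obtain ⟨f, hf, S, hS, hfS⟩ := ih
    refine ⟨fun x => op e (x 0) (f (Fin.tail x)), ?_,
      (S ×ˢ (univ \ univ.image e)).image
        fun p => (Fin.cons (∑ k, p.1 k - p.2) p.1 : Fin (d + 1) → G), ?_, ?_⟩
    · intro z i
      induction i using Fin.cases with
      | zero =>
        intro a a' h
        simp only [Fin.tail_update_zero, update_self] at h
        exact op_right he h2 _ h
      | succ j =>
        intro a a' h
        simp only [Fin.tail_update_succ, update_of_ne (Fin.succ_ne_zero j).symm] at h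
        exact hf _ j (op_left he h2 _ h)
    · rw [card_image_of_injective, card_product, card_sdiff_of_subset (subset_univ _),
        card_image_of_injective _ he, card_univ, card_univ, pow_succ]
      · exact Nat.mul_le_mul_right _ hS
      · rintro ⟨v, δ⟩ ⟨v', δ'⟩ h
        obtain ⟨h1, h3⟩ := Fin.cons_injective2 h
        simp only at h1 h3
        subst h3
        rw [sub_right_injective h1]
    · intro w hw a
      obtain ⟨⟨v, δ⟩, hp, rfl⟩ := mem_image.1 hw
      obtain ⟨hv, hδ⟩ := mem_product.1 hp
      have hδ' : δ ∉ Set.range e := by simpa using hδ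
      have ht : Fin.tail (fun k : Fin (d + 1) => (Sum.inl
          ((Fin.cons (∑ k, v k - δ) v : Fin (d + 1) → G) k, a k) : (G × ZMod 2) ⊕ R))
          = fun k => .inl (v k, a k.succ) := by
        funext k; simp [Fin.tail]
      simp only [ht, hfS v hv, Fin.cons_zero]
      rw [op_good (by simpa using hδ'), Fin.sum_univ_succ, Fin.sum_univ_succ]
      simp

/-- exchange of the two points of a class -/
def flip2 : (G × ZMod 2) ⊕ R → (G × ZMod 2) ⊕ R
  | .inl (i, a) => .inl (i, a + 1)
  | .inr t => .inr t

omit [AddCommGroup G] [AddCommGroup R] in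
lemma flip2_inj : Function.Injective (flip2 : (G × ZMod 2) ⊕ R → (G × ZMod 2) ⊕ R) := by
  rintro (⟨i, a⟩ | t) (⟨j, b⟩ | u) h <;> simp_all [flip2]

/-- the class of a point -/
def cls : (G × ZMod 2) ⊕ R → Option G
  | .inl (i, _) => some i
  | .inr _ => none

omit [AddCommGroup G] [AddCommGroup R] in
lemma cls_flip2 (x : (G × ZMod 2) ⊕ R) : cls (flip2 x) = cls x := by
  rcases x with ⟨i, a⟩ | t <;> rfl

omit [AddCommGroup G] [AddCommGroup R] in
lemma exists_of_cls {x : (G × ZMod 2) ⊕ R} {i : G} (h : cls x = some i) :
    ∃ a, x = .inl (i, a) := by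
  rcases x with ⟨j, a⟩ | t
  · exact ⟨a, by simp only [cls, Option.some.injEq] at h; rw [h]⟩
  · simp [cls] at h

lemma lower_table [Fintype G] [Fintype R] {e : R → G} (he : Function.Injective e)
    (h2 : ∀ x y : G, x + x = y + y → x = y) (d q : ℕ)
    (hq : q = Fintype.card G * 2 + Fintype.card R) :
    2 ^ ((Fintype.card G - Fintype.card R) ^ d) ≤ (latinSet d q).card := by
  classical
  obtain ⟨f, hf, S, hS, hfS⟩ := chain he h2 d
  let E : Fin q ≃ (G × ZMod 2) ⊕ R := Fintype.equivOfCardEq (by simp [hq])
  let C : Finset (Fin d → G) → (Fin d → (G × ZMod 2) ⊕ R) → Prop :=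
    fun T x => ∃ v ∈ T, ∀ k, cls (x k) = some (v k)
  let g : Finset (Fin d → G) → (Fin d → (G × ZMod 2) ⊕ R) → (G × ZMod 2) ⊕ R :=
    fun T x => if C T x then flip2 (f x) else f x
  have hg : ∀ T ⊆ S, ∀ z i, Function.Injective fun a => g T (update z i a) := by
    intro T hT z i
    have hσ : ∀ a, g T (update z i a)
        = f (update z i (if C T (update z i a) then flip2 a else a)) := by
      intro a
      simp only [g]
      split_ifs with hC
      · obtain ⟨v, hv, hc⟩ := hC
        choose α hα using fun k => exists_of_cls (hc k)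
        have e1 : update z i a = fun k => .inl (v k, α k) := funext hα
        have e2 : update z i (flip2 a) = fun k => .inl (v k, update α i (α i + 1) k) := by
          funext k
          by_cases hk : k = i
          · subst hk
            have := hα k
            rw [update_self] at this
            rw [update_self, update_self, this]
            rfl
          · have := hα k
            rw [update_of_ne hk] at this
            rw [update_of_ne hk, update_of_ne hk, this]
        rw [e1, e2, hfS v (hT hv), hfS v (hT hv), sum_update_of_mem (mem_univ i),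
          ← add_sum_erase _ α (mem_univ i), sdiff_singleton_eq_erase]
        simp only [flip2]
        rw [add_right_comm]
      · rfl
    intro a a' h
    simp only [hσ] at h
    have h1 := hf z i h
    have h3 : cls a = cls a' := by
      have := congrArg cls h1
      split_ifs at this <;> simpa [cls_flip2] using this
    have h4 : C T (update z i a) ↔ C T (update z i a') := by
      have : ∀ k, cls (update z i a k) = cls (update z i a' k) := by
        intro k
        by_cases hk : k = i
        · subst hk; simp [h3]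
        · rw [update_of_ne hk, update_of_ne hk]
      simp only [C, this]
    by_cases hC : C T (update z i a)
    · rw [if_pos hC, if_pos (h4.1 hC)] at h1
      exact flip2_inj h1
    · rw [if_neg hC, if_neg (fun a => hC (h4.2 a))] at h1
      exact h1
  let F : Finset (Fin d → G) → (Fin d → Fin q) → Fin q :=
    fun T z => E.symm (g T fun k => E (z k))
  have hF : ∀ T ⊆ S, Latin (F T) := by
    intro T hT z i a a' h
    simp only [F, EmbeddingLike.apply_eq_iff_eq] at h
    have hu : ∀ c, (fun k => E (update z i c k)) = update (fun k => E (z k)) i (E c) :=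
      fun c => Function.comp_update E z i c
    rw [hu, hu] at h
    exact E.injective (hg T hT _ i h)
  have hmem : ∀ T ⊆ S, ∀ v ∈ S, (v ∈ T ↔
      F T (fun k => E.symm (.inl (v k, 0))) = E.symm (.inl (∑ k, v k, 1))) := by
    intro T hT v hv
    have hC : C T (fun k => .inl (v k, 0)) ↔ v ∈ T := by
      simp only [C, cls, Option.some.injEq]
      constructor
      · rintro ⟨w, hw, h⟩
        rw [show v = w from funext h]
        exact hw
      · intro h
        exact ⟨v, h, fun _ => rfl⟩
    have h0 := hfS v hv fun _ => 0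
    simp only [F, g, Equiv.apply_symm_apply, EmbeddingLike.apply_eq_iff_eq, hC, h0]
    split_ifs with h <;> simp [flip2, h]
  calc 2 ^ ((Fintype.card G - Fintype.card R) ^ d) ≤ 2 ^ S.card :=
        Nat.pow_le_pow_right two_pos hS
    _ = S.powerset.card := (card_powerset S).symm
    _ ≤ _ := by
        refine card_le_card_of_injOn F (fun T hT => ?_) fun T hT T' hT' h => ?_
        · exact mem_latinSet.2 (hF T (mem_powerset.1 hT))
        · have a1 : T ⊆ S := mem_powerset.1 hT
          have a2 : T' ⊆ S := mem_powerset.1 hT'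
          ext v
          by_cases hv : v ∈ S
          · rw [hmem T a1 v hv, hmem T' a2 v hv, h]
          · exact ⟨fun a => absurd (a1 a) hv, fun a => absurd (a2 a) hv⟩

end table

lemma lower_odd (d m r : ℕ) (hm : Odd m) (hr : 0 < r) (hrm : r ≤ m) :
    2 ^ ((m - r) ^ d) ≤ (latinSet d (m * 2 + r)).card := by
  have : NeZero m := ⟨by omega⟩
  have : NeZero r := ⟨hr.ne'⟩
  have he : Function.Injective fun t : ZMod r => ((t.val : ℕ) : ZMod m) := by
    intro t t' h
    have h1 := congrArg ZMod.val h
    simp only [ZMod.val_natCast] at h1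
    rw [Nat.mod_eq_of_lt ((ZMod.val_lt t).trans_le hrm),
      Nat.mod_eq_of_lt ((ZMod.val_lt t').trans_le hrm)] at h1
    exact ZMod.val_injective r h1
  have h2 : ∀ x y : ZMod m, x + x = y + y → x = y := by
    intro x y h
    have hu : IsUnit ((2 : ℕ) : ZMod m) := (ZMod.isUnit_iff_coprime 2 m).2 (Nat.coprime_two_left.2 hm)
    apply hu.mul_left_cancel
    push_cast
    rw [two_mul, two_mul, h]
  have := lower_table he h2 d (m * 2 + r) (by simp)
  simpa using this

end Pool.Agent.Work.MP_85f59e_co.U
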