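import Pool.Agent.Work.MP_85f59e_co.U.Upper
import Pool.Agent.Work.MP_85f59e_co.U.Odd

namespace Pool.Agent.Work.MP_85f59e_co.U

open Finset Function Pool.Agent.Work.MP_85f59e_co

lemma le_logb_of_pow_le {a N : ℕ} (h : 2 ^ a ≤ N) : (a : ℝ) ≤ Real.logb 2 N := by
  have h2 : ((2 : ℝ)) ^ a ≤ N := by exact_mod_cast h
  calc (a : ℝ) = Real.logb 2 (2 ^ a) := by
        rw [Real.logb_pow, Real.logb_self_eq_one one_lt_two]; simp
    _ ≤ _ := Real.logb_le_logb_of_le one_lt_two (by positivity) h2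

theorem uniform_lower (q n : ℕ) (hq : 2 ≤ q) (hn : 1 ≤ n) :
    (1 - if Even q then 0 else 9 * (n : ℝ) / q) * ((q : ℝ) / 2) ^ (n - 1)
      ≤ Real.logb 2 (numMDS q n) := by
  obtain ⟨d, rfl⟩ : ∃ d, n = d + 1 := ⟨n - 1, by omega⟩
  rw [numMDS_eq, Nat.add_sub_cancel]
  have hq0 : (0 : ℝ) < q := by exact_mod_cast (by omega : 0 < q)
  have hd0 : (0 : ℝ) ≤ d := by positivity
  split_ifs with he
  · obtain ⟨m, hm⟩ := he
    have h1 := le_logb_of_pow_le (lower_even d m (by omega))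
    rw [show 2 * m = q by omega] at h1
    have hqm : (q : ℝ) / 2 = m := by rw [hm]; push_cast; ring
    rw [sub_zero, one_mul, hqm]
    exact_mod_cast h1
  · by_cases h9 : q < 9
    · have h9' : (q : ℝ) ≤ 9 := by exact_mod_cast h9.le
      refine le_trans (mul_nonpos_of_nonpos_of_nonneg ?_ (by positivity))
        (div_nonneg (Real.log_natCast_nonneg _) (Real.log_nonneg one_le_two))
      rw [sub_nonpos, le_div_iff₀ hq0]
      push_cast
      linarith
    have hodd : q % 2 = 1 := Nat.odd_iff.1 (Nat.not_even_iff_odd.1 he)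
    obtain ⟨m, r, hm, hr, hrm, hqe, ha⟩ : ∃ m r : ℕ, Odd m ∧ 0 < r ∧ r ≤ m ∧ q = m * 2 + r ∧
        q ≤ 2 * (m - r) + 9 := by
      by_cases h4 : q % 4 = 3
      · exact ⟨q / 2, 1, Nat.odd_iff.2 (by omega), by omega, by omega, by omega, by omega⟩
      · exact ⟨q / 2 - 1, 3, Nat.odd_iff.2 (by omega), by omega, by omega, by omega, by omega⟩
    have h1 := le_logb_of_pow_le (lower_odd d m r hm hr hrm)
    rw [← hqe] at h1
    refine le_trans ?_ h1
    have h9' : (9 : ℝ) ≤ q := by exact_mod_cast not_lt.1 h9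
    have ha' : (q : ℝ) ≤ 2 * ((m - r : ℕ) : ℝ) + 9 := by exact_mod_cast ha
    have hx : (9 : ℝ) / q ≤ 1 := by rw [div_le_one hq0]; exact h9'
    have hx0 : (0 : ℝ) ≤ 9 / q := by positivity
    have hB := one_add_mul_le_pow (a := -(9 / (q : ℝ))) (by linarith) d
    calc _ ≤ (1 + -(9 / (q : ℝ))) ^ d * ((q : ℝ) / 2) ^ d := by
          refine mul_le_mul_of_nonneg_right (le_trans ?_ hB) (by positivity)
          push_cast
          have : 9 * ((d : ℝ) + 1) / q = d * (9 / q) + 9 / q := by ring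
          linarith
      _ = ((1 + -(9 / (q : ℝ))) * ((q : ℝ) / 2)) ^ d := by rw [mul_pow]
      _ ≤ ((m - r : ℕ) : ℝ) ^ d := by
          have e : (1 + -(9 / (q : ℝ))) * ((q : ℝ) / 2) = (q - 9) / 2 := by field_simp; ring
          rw [e]
          exact pow_le_pow_left₀ (by linarith) (by linarith) d
      _ = _ := by push_cast; rfl

theorem uniform_ratio (q n : ℕ) (hq : 2 ≤ q) (hn : 1 ≤ n) :
    |Real.logb 2 (numMDS q n) / ((q : ℝ) / 2) ^ (n - 1) - 1|
      ≤ 100 * (q : ℝ) ^ 2 * (999 / 1000) ^ n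
        + if Even q then 0 else min 1 (9 * (n : ℝ) / q) := by
  have hq0 : (0 : ℝ) < q := by exact_mod_cast (by omega : 0 < q)
  have hX : (0 : ℝ) < ((q : ℝ) / 2) ^ (n - 1) := by positivity
  have h1 := (le_div_iff₀ hX).2 (uniform_lower q n hq hn)
  have h2 := (div_le_iff₀ hX).2 (uniform_upper q n hq hn)
  have h3 : (0 : ℝ) ≤ 100 * (q : ℝ) ^ 2 * (999 / 1000) ^ n := by positivity
  have h5 : 0 ≤ Real.logb 2 (numMDS q n) / ((q : ℝ) / 2) ^ (n - 1) :=
    div_nonneg (div_nonneg (Real.log_natCast_nonneg _) (Real.log_nonneg one_le_two)) hX.le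
  rw [abs_le]
  split_ifs at h1 ⊢
  · constructor <;> linarith
  · have h4 : (0 : ℝ) ≤ min 1 (9 * (n : ℝ) / q) := le_min zero_le_one (by positivity)
    refine ⟨?_, by linarith⟩
    rcases min_choice 1 (9 * (n : ℝ) / q) with e | e <;> rw [e] <;> linarith

end Pool.Agent.Work.MP_85f59e_co.U
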