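import Pool.Agent.Work.MP_85f59e_co.Asymp

namespace Pool.Agent.Work.MP_85f59e_co.U

open Finset Function Pool.Agent.Work.MP_85f59e_co
open scoped BigOperators

variable {d q : ℕ}

/-- a symbol of a Latin completion cannot sit at an earlier cell of the same line -/
lemma later {π : Fin d → Equiv.Perm (Fin q)} {f h : (Fin d → Fin q) → Fin q} (hh : Latin h)
    {z y : Fin d → Fin q} (hp : ∀ x, key π x < key π z → h x = f x) {j : Fin d}
    (hy : ∀ i < j, y i = z i) {c c' : Fin q} (hcc : c ≠ c') (hcz : c ≠ z j)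
    (he : f (update y j c) = h (update y j c')) : π j (z j) < π j c := by
  rcases lt_or_gt_of_ne ((π j).injective.ne hcz) with h1 | h1
  · exfalso
    have e1 : h (update y j c) = f (update y j c) :=
      hp _ (key_lt j (fun i hi => by rw [update_of_ne hi.ne, hy i hi]) (by simpa using h1))
    exact hcc (hh y j (by simp only; rw [e1, he]))
  · exact h1

/-- the corner of the box at `z` for the symbol `s` given by the directions `V` -/
noncomputable def cor (f : (Fin d → Fin q) → Fin q) (z : Fin d → Fin q) (s : Fin q)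
    (V : Finset (Fin d)) : Fin d → Fin q :=
  V.piecewise (pos f z s) z

lemma cor_empty (f : (Fin d → Fin q) → Fin q) (z : Fin d → Fin q) (s : Fin q) :
    cor f z s ∅ = z := by simp [cor]

lemma cor_insert (f : (Fin d → Fin q) → Fin q) (z : Fin d → Fin q) (s : Fin q)
    (V : Finset (Fin d)) (j : Fin d) :
    cor f z s (insert j V) = update (cor f z s V) j (pos f z s j) := by
  simp only [cor]; rw [piecewise_insert]

lemma cor_notMem (f : (Fin d → Fin q) → Fin q) (z : Fin d → Fin q) (s : Fin q)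
    {V : Finset (Fin d)} {j : Fin d} (hj : j ∉ V) : cor f z s V j = z j :=
  piecewise_eq_of_notMem _ _ _ hj

/-- `t` is the value at most outer neighbours of the corner `V` -/
def Maj (f : (Fin d → Fin q) → Fin q) (O : Finset (Fin d)) (k : ℕ) (z : Fin d → Fin q)
    (s : Fin q) (V : Finset (Fin d)) (t : Fin q) : Prop :=
  (O.filter fun i => f (update (cor f z s V) i (pos f z s i)) ≠ t).card < k

lemma maj_unique {f : (Fin d → Fin q) → Fin q} {O : Finset (Fin d)} {k : ℕ} (hk : 2 * k ≤ O.card)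
    {z : Fin d → Fin q} {s : Fin q} {V : Finset (Fin d)} {t t' : Fin q}
    (h1 : Maj f O k z s V t) (h2 : Maj f O k z s V t') : t = t' := by
  by_contra hne
  unfold Maj at h1 h2
  have hsub : O ⊆ (O.filter fun i => f (update (cor f z s V) i (pos f z s i)) ≠ t) ∪
      (O.filter fun i => f (update (cor f z s V) i (pos f z s i)) ≠ t') := by
    intro i hi
    rw [mem_union, mem_filter, mem_filter]
    by_cases h : f (update (cor f z s V) i (pos f z s i)) = t
    · exact Or.inr ⟨hi, by rw [h]; exact hne⟩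
    · exact Or.inl ⟨hi, h⟩
  have := (card_le_card hsub).trans (card_union_le _ _)
  omega

/-- the exceptional orders -/
def Rare (π : Fin d → Equiv.Perm (Fin q)) (f : (Fin d → Fin q) → Fin q) (O I : Finset (Fin d))
    (k : ℕ) (z : Fin d → Fin q) (s : Fin q) : Prop :=
  ∃ V ⊆ I, ∃ t, t ≠ f (cor f z s V) ∧ ¬ Maj f O k z s V t ∧
    ∀ i ∈ O, π i (z i) < π i (pos f (cor f z s V) t i)

lemma maj_of_ne {π : Fin d → Equiv.Perm (Fin q)} {f h : (Fin d → Fin q) → Fin q} (hf : Latin f)
    (hh : Latin h) {z : Fin d → Fin q} (hp : ∀ x, key π x < key π z → h x = f x)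
    {O I : Finset (Fin d)} (hOI : ∀ i ∈ O, ∀ j ∈ I, i < j) {k : ℕ} {s : Fin q}
    (hR : ¬ Rare π f O I k z s) {V : Finset (Fin d)} (hV : V ⊆ I)
    (hne : h (cor f z s V) ≠ f (cor f z s V)) : Maj f O k z s V (h (cor f z s V)) := by
  by_contra hM
  refine hR ⟨V, hV, _, hne, hM, fun i hi => ?_⟩
  have hiV : i ∉ V := fun a => lt_irrefl _ (hOI i hi i (hV a))
  have hc : pos f (cor f z s V) (h (cor f z s V)) i ≠ z i := by
    rw [← cor_notMem f z s hiV]; exact pos_ne hf hne i
  refine later hh hp (y := cor f z s V) (c' := z i)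
    (fun j hj => cor_notMem f z s fun a => lt_asymm hj (hOI i hi j (hV a))) hc hc ?_
  rw [pos_spec hf, ← cor_notMem f z s hiV, update_eq_self]

/-- a corner with the alternating value and an alternating majority of outer neighbours -/
def Clean (f : (Fin d → Fin q) → Fin q) (O : Finset (Fin d)) (k : ℕ) (z : Fin d → Fin q)
    (s : Fin q) (V : Finset (Fin d)) : Prop :=
  f (cor f z s V) = alt (f z) s V.card ∧ Maj f O k z s V (alt s (f z) V.card)

lemma clean_empty {f : (Fin d → Fin q) → Fin q} (hf : Latin f) (O : Finset (Fin d)) {k : ℕ}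
    (hk : 0 < k) (z : Fin d → Fin q) (s : Fin q) : Clean f O k z s ∅ := by
  refine ⟨by simp [cor_empty], ?_⟩
  unfold Maj
  rw [filter_eq_empty_iff.2]
  · simpa using hk
  · intro i _
    simp [cor_empty, pos_spec hf]

lemma ne_on_line {f h : (Fin d → Fin q) → Fin q} (hf : Latin f) (hh : Latin h)
    {z : Fin d → Fin q} {s : Fin q} (hs : s ≠ f z) {V : Finset (Fin d)} {j : Fin d} (hj : j ∉ V) :
    h (cor f z s (insert j V)) ≠ h (cor f z s V) := by
  intro he
  apply pos_ne hf hs j
  rw [← cor_notMem f z s hj]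
  apply hh (cor f z s V) j
  simp only [update_eq_self]
  rw [← cor_insert, he]

lemma swap {π : Fin d → Equiv.Perm (Fin q)} {f h : (Fin d → Fin q) → Fin q} (hf : Latin f)
    (hh : Latin h) {z : Fin d → Fin q} (hp : ∀ x, key π x < key π z → h x = f x)
    {O I : Finset (Fin d)} (hOI : ∀ i ∈ O, ∀ j ∈ I, i < j) {k : ℕ} (hk : 2 * k ≤ O.card)
    {s : Fin q} (hs : s ≠ f z) (hz : h z = s) (hR : ¬ Rare π f O I k z s) (V : Finset (Fin d))
    (hV : V ⊆ I) (hC : ∀ T ⊆ V, Clean f O k z s T) :
    h (cor f z s V) = alt s (f z) V.card := by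
  induction V using Finset.induction_on with
  | empty => simp [cor_empty, hz]
  | insert j V hj ih =>
    have ih' := ih ((subset_insert _ _).trans hV) fun T hT => hC T (hT.trans (subset_insert _ _))
    have hc := hC _ Subset.rfl
    have hne : h (cor f z s (insert j V)) ≠ f (cor f z s (insert j V)) := by
      rw [hc.1, card_insert_of_notMem hj, alt_succ, ← ih']
      exact ne_on_line hf hh hs hj
    exact maj_unique hk (maj_of_ne hf hh hp hOI hR hV hne) hc.2

/-- a direction with a third position that must come later -/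
def Good (f : (Fin d → Fin q) → Fin q) (O I : Finset (Fin d)) (k : ℕ) (z : Fin d → Fin q)
    (s : Fin q) (j : Fin d) : Prop :=
  ∃ c, c ≠ z j ∧ c ≠ pos f z s j ∧
    ∀ π : Fin d → Equiv.Perm (Fin q), Avail π f z s → ¬ Rare π f O I k z s → π j (z j) < π j c

lemma gap {f : (Fin d → Fin q) → Fin q} (hf : Latin f) {z : Fin d → Fin q}
    {O I : Finset (Fin d)} (hOI : ∀ i ∈ O, ∀ j ∈ I, i < j) {k : ℕ} (hk : 2 * k ≤ O.card)
    {s : Fin q} (hs : s ≠ f z) (hex : ∃ π, Avail π f z s ∧ ¬ Rare π f O I k z s)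
    {V : Finset (Fin d)} {j : Fin d} (hV : insert j V ⊆ I) (hj : ∀ i ∈ V, j < i)
    (hC : ∀ T ⊆ V, Clean f O k z s T) (hU : ¬ Clean f O k z s (insert j V)) :
    Good f O I k z s j := by
  have hjV : j ∉ V := fun a => lt_irrefl _ (hj j a)
  have hVI : V ⊆ I := (subset_insert _ _).trans hV
  have hy : ∀ i < j, cor f z s V i = z i :=
    fun i hi => cor_notMem f z s fun a => lt_asymm hi (hj i a)
  have hyj : cor f z s V j = z j := cor_notMem f z s hjV
  have hb : f (cor f z s V) = alt (f z) s V.card := (hC V Subset.rfl).1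
  -- generic conclusion from a symbol `t`
  have fin : ∀ t, t ≠ f (cor f z s V) → t ≠ f (cor f z s (insert j V)) →
      (∀ π h, Latin h → (∀ x, key π x < key π z → h x = f x) → h z = s →
        ¬ Rare π f O I k z s → t = h (cor f z s V) ∨ t = h (cor f z s (insert j V))) →
      Good f O I k z s j := by
    intro t h1 h2 h3
    have c1 : pos f (cor f z s V) t j ≠ z j := by rw [← hyj]; exact pos_ne hf h1 j
    have c2 : pos f (cor f z s V) t j ≠ pos f z s j := by
      intro e
      apply h2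
      rw [cor_insert, ← e, pos_spec hf]
    refine ⟨_, c1, c2, ?_⟩
    rintro π ⟨h, hh, hp, hz⟩ hR
    rcases h3 π h hh hp hz hR with e | e
    · refine later hh hp hy c1 c1 ?_
      rw [pos_spec hf, ← hyj, update_eq_self, e]
    · refine later hh hp hy c2 c1 ?_
      rw [pos_spec hf, ← cor_insert, e]
  by_cases hA : f (cor f z s (insert j V)) = alt s (f z) V.card
  · have hM : ¬ Maj f O k z s (insert j V) (alt (f z) s V.card) := by
      intro hM
      apply hU
      refine ⟨by rw [hA, card_insert_of_notMem hjV, alt_succ], ?_⟩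
      rw [card_insert_of_notMem hjV, alt_succ]
      exact hM
    have key1 : ∀ π h, Latin h → (∀ x, key π x < key π z → h x = f x) → h z = s →
        ¬ Rare π f O I k z s → h (cor f z s (insert j V)) ≠ f (cor f z s (insert j V)) ∧
          Maj f O k z s (insert j V) (h (cor f z s (insert j V))) := by
      intro π h hh hp hz hR
      have hne : h (cor f z s (insert j V)) ≠ f (cor f z s (insert j V)) := by
        rw [hA, ← swap hf hh hp hOI hk hs hz hR V hVI hC]
        exact ne_on_line hf hh hs hjV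
      exact ⟨hne, maj_of_ne hf hh hp hOI hR hV hne⟩
    obtain ⟨π0, ⟨h0, hh0, hp0, hz0⟩, hR0⟩ := hex
    obtain ⟨a1, a2⟩ := key1 π0 h0 hh0 hp0 hz0 hR0
    refine fin (h0 (cor f z s (insert j V))) ?_ a1 ?_
    · intro e
      rw [e, hb] at a2
      exact hM a2
    · intro π h hh hp hz hR
      exact Or.inr (maj_unique hk a2 (key1 π h hh hp hz hR).2)
  · refine fin (alt s (f z) V.card) ?_ (Ne.symm hA) ?_
    · rw [hb]; exact alt_ne hs _
    · intro π h hh hp hz hR
      exact Or.inl (swap hf hh hp hOI hk hs hz hR V hVI hC).symm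

lemma clean_of_not_good {f : (Fin d → Fin q) → Fin q} (hf : Latin f) {z : Fin d → Fin q}
    {O I : Finset (Fin d)} (hOI : ∀ i ∈ O, ∀ j ∈ I, i < j) {k : ℕ} (hk0 : 0 < k)
    (hk : 2 * k ≤ O.card) {s : Fin q} (hs : s ≠ f z)
    (hex : ∃ π, Avail π f z s ∧ ¬ Rare π f O I k z s) (J : Finset (Fin d)) (hJ : J ⊆ I)
    (hG : ∀ j ∈ J, ¬ Good f O I k z s j) : ∀ T ⊆ J, Clean f O k z s T := by
  induction J using Finset.induction_on_min with
  | empty =>
    intro T hT
    rw [subset_empty.1 hT]
    exact clean_empty hf O hk0 z s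
  | insert j J hj ih =>
    have ih' := ih ((subset_insert _ _).trans hJ) fun i hi => hG i (mem_insert_of_mem hi)
    intro T hT
    by_cases hjT : j ∈ T
    · have hT' : T.erase j ⊆ J := by
        intro i hi
        rcases mem_insert.1 (hT (mem_of_mem_erase hi)) with rfl | h'
        · exact absurd rfl (ne_of_mem_erase hi)
        · exact h'
      by_contra hU
      rw [← insert_erase hjT] at hU
      refine hG j (mem_insert_self _ _) (gap hf hOI hk hs hex (V := T.erase j) ?_
        (fun i hi => hj i (hT' hi)) (fun S hS => ih' S (hS.trans hT')) hU)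
      rw [insert_erase hjT]
      exact hT.trans hJ
    · exact ih' T ((subset_insert_iff_of_notMem hjT).1 hT)

lemma expect_first {x y c : Fin q} (hxy : x ≠ y) (hcx : c ≠ x) (hcy : c ≠ y) :
    𝔼 σ : Equiv.Perm (Fin q), ind (σ x < σ y) * ind (σ x < σ c) = 1 / 3 := by
  have a1 := expect_lt2 hxy
  have a2 := expect_lt3 hcx hcy hxy
  have : ∀ σ : Equiv.Perm (Fin q), ind (σ x < σ y) * ind (σ x < σ c)
      = ind (σ x < σ y) - ind (σ x < σ y) * ind (σ c < σ x) := by
    intro σ
    rcases lt_or_gt_of_ne (σ.injective.ne hcx) with h | h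
    · rw [ind_of h, ind_of_not (not_lt.2 h.le)]; ring
    · rw [ind_of h, ind_of_not (not_lt.2 h.le)]; ring
  simp_rw [this]
  rw [expect_sub_distrib, a1, a2]
  norm_num

lemma first_bound {f : (Fin d → Fin q) → Fin q} (hf : Latin f) {z : Fin d → Fin q} {s : Fin q}
    (hs : s ≠ f z) (A : (Fin d → Equiv.Perm (Fin q)) → Prop) (E : Finset (Fin d))
    (c : Fin d → Fin q) (hc : ∀ i ∈ E, c i ≠ z i ∧ c i ≠ pos f z s i)
    (hA : ∀ π, A π → Avail π f z s ∧ ∀ i ∈ E, π i (z i) < π i (c i)) {m : ℕ} (hm : m ≤ E.card) :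
    𝔼 π, ind (A π) ≤ (1 / 2) ^ d * (2 / 3) ^ m := by
  let ψ : Fin d → Equiv.Perm (Fin q) → ℝ := fun i σ => ind (σ (z i) < σ (pos f z s i)) *
    if i ∈ E then ind (σ (z i) < σ (c i)) else 1
  have h1 : ∀ π : Fin d → Equiv.Perm (Fin q), ind (A π) ≤ ∏ i, ψ i (π i) := by
    intro π
    by_cases h : A π
    · obtain ⟨a1, a2⟩ := hA π h
      have : ∀ i, ψ i (π i) = 1 := by
        intro i
        simp only [ψ, ind_of (avail_lt hf hs a1 i), one_mul]
        split_ifs with hi
        · exact ind_of (a2 i hi)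
        · rfl
      rw [ind_of h, prod_congr rfl fun i _ => this i]; simp
    · rw [ind_of_not h]
      refine prod_nonneg fun i _ => mul_nonneg (ind_nonneg _) ?_
      split_ifs
      · exact ind_nonneg _
      · norm_num
  refine (expect_le_expect fun π _ => h1 π).trans ?_
  rw [expect_pi_prod ψ]
  have h2 : ∀ i, 𝔼 σ, ψ i σ = 1 / 2 * if i ∈ E then 2 / 3 else 1 := by
    intro i
    simp only [ψ]
    split_ifs with hi
    · rw [expect_first (pos_ne hf hs i).symm (hc i hi).1 (hc i hi).2]; norm_num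
    · simp only [mul_one]
      exact expect_lt2 (pos_ne hf hs i).symm
  rw [prod_congr rfl fun i _ => h2 i, prod_mul_distrib, prod_ite_mem, univ_inter, prod_const,
    prod_const, card_univ, Fintype.card_fin]
  gcongr (1 / 2) ^ d * ?_
  exact pow_le_pow_of_le_one (by norm_num) (by norm_num) hm

lemma rare_bound {f : (Fin d → Fin q) → Fin q} (hf : Latin f) {z : Fin d → Fin q} {s : Fin q}
    (hs : s ≠ f z) {O I : Finset (Fin d)} (hOI : ∀ i ∈ O, ∀ j ∈ I, i < j) (k : ℕ) :
    𝔼 π, ind (Avail π f z s ∧ Rare π f O I k z s)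
      ≤ (1 / 2) ^ d * (2 ^ I.card * q * (2 / 3) ^ k) := by
  let B : Finset (Fin d) → Fin q → (Fin d → Equiv.Perm (Fin q)) → Prop := fun V t π =>
    Avail π f z s ∧ t ≠ f (cor f z s V) ∧ ¬ Maj f O k z s V t ∧
      ∀ i ∈ O, π i (z i) < π i (pos f (cor f z s V) t i)
  have h1 : ∀ π, ind (Avail π f z s ∧ Rare π f O I k z s)
      ≤ ∑ V ∈ I.powerset, ∑ t, ind (B V t π) := by
    intro π
    by_cases h : Avail π f z s ∧ Rare π f O I k z s
    · obtain ⟨a1, V, hV, t, a2⟩ := h
      calc _ ≤ ind (B V t π) := ind_mono fun _ => ⟨a1, a2⟩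
        _ ≤ ∑ t, ind (B V t π) :=
          single_le_sum (f := fun t => ind (B V t π)) (fun _ _ => ind_nonneg _) (mem_univ t)
        _ ≤ _ := single_le_sum (f := fun V => ∑ t, ind (B V t π))
          (fun _ _ => sum_nonneg fun _ _ => ind_nonneg _) (mem_powerset.2 hV)
    · rw [ind_of_not h]
      exact sum_nonneg fun _ _ => sum_nonneg fun _ _ => ind_nonneg _
  refine (expect_le_expect fun π _ => h1 π).trans ?_
  rw [expect_sum_comm]
  simp_rw [expect_sum_comm]
  have h2 : ∀ V ∈ I.powerset, ∀ t, 𝔼 π, ind (B V t π) ≤ (1 / 2) ^ d * (2 / 3) ^ k := by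
    intro V hV t
    by_cases h : t ≠ f (cor f z s V) ∧ ¬ Maj f O k z s V t
    · refine first_bound hf hs _
        (O.filter fun i => f (update (cor f z s V) i (pos f z s i)) ≠ t)
        (pos f (cor f z s V) t) ?_ ?_ (not_lt.1 h.2)
      · intro i hi
        obtain ⟨hi1, hi2⟩ := mem_filter.1 hi
        have hiV : i ∉ V := fun a => lt_irrefl _ (hOI i hi1 i (mem_powerset.1 hV a))
        refine ⟨by rw [← cor_notMem f z s hiV]; exact pos_ne hf h.1 i, fun e => hi2 ?_⟩
        rw [← e, pos_spec hf]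
      · intro π hπ
        exact ⟨hπ.1, fun i hi => hπ.2.2.2 i (mem_filter.1 hi).1⟩
    · have : ∀ π, ind (B V t π) = 0 := fun π => ind_of_not fun hπ => h ⟨hπ.2.1, hπ.2.2.1⟩
      simp_rw [this]
      rw [Fintype.expect_const]
      positivity
  calc _ ≤ ∑ _V ∈ I.powerset, ∑ _t : Fin q, ((1 / 2 : ℝ) ^ d * (2 / 3) ^ k) :=
        sum_le_sum fun V hV => sum_le_sum fun t _ => h2 V hV t
    _ = _ := by
        simp only [sum_const, card_powerset, card_univ, Fintype.card_fin, nsmul_eq_mul]
        push_cast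
        ring

/-- the box at `z` for `s` is a subcube of order two in all but few inner directions -/
def NF (f : (Fin d → Fin q) → Fin q) (I : Finset (Fin d)) (w : ℕ) (z : Fin d → Fin q)
    (s : Fin q) : Prop :=
  ∃ J ⊆ I, J.card = w ∧ Full f J z s

/-- the gap lemma -/
lemma gap_bound {f : (Fin d → Fin q) → Fin q} (hf : Latin f) {z : Fin d → Fin q} {s : Fin q}
    (hs : s ≠ f z) {O I : Finset (Fin d)} (hOI : ∀ i ∈ O, ∀ j ∈ I, i < j) {k : ℕ} (hk0 : 0 < k)
    (hk : 2 * k ≤ O.card) {w m : ℕ} (hwm : w + m ≤ I.card) (hN : ¬ NF f I w z s) :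
    𝔼 π, ind (Avail π f z s)
      ≤ (1 / 2) ^ d * ((2 / 3) ^ m + 2 ^ I.card * q * (2 / 3) ^ k) := by
  classical
  have h1 : ∀ π, ind (Avail π f z s) ≤ ind (Avail π f z s ∧ ¬ Rare π f O I k z s)
      + ind (Avail π f z s ∧ Rare π f O I k z s) := by
    intro π
    have n1 := ind_nonneg (Avail π f z s ∧ ¬ Rare π f O I k z s)
    have n2 := ind_nonneg (Avail π f z s ∧ Rare π f O I k z s)
    by_cases h : Rare π f O I k z s
    · have := ind_mono (p := Avail π f z s) fun a => (⟨a, h⟩ : Avail π f z s ∧ Rare π f O I k z s)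
      linarith
    · have := ind_mono (p := Avail π f z s)
        fun a => (⟨a, h⟩ : Avail π f z s ∧ ¬ Rare π f O I k z s)
      linarith
  refine (expect_le_expect fun π _ => h1 π).trans ?_
  rw [expect_add_distrib, mul_add]
  refine add_le_add ?_ (rare_bound hf hs hOI k)
  by_cases hex : ∃ π, Avail π f z s ∧ ¬ Rare π f O I k z s
  swap
  · have : ∀ π, ind (Avail π f z s ∧ ¬ Rare π f O I k z s) = 0 :=
      fun π => ind_of_not fun hπ => hex ⟨π, hπ⟩
    simp_rw [this]
    rw [Fintype.expect_const]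
    positivity
  let D := I.filter fun j => Good f O I k z s j
  have hD : m ≤ D.card := by
    by_contra hc
    apply hN
    have hcl := clean_of_not_good hf hOI hk0 hk hs hex (I.filter fun j => ¬ Good f O I k z s j)
      (filter_subset _ _) fun j hj => (mem_filter.1 hj).2
    have hcard := card_filter_add_card_filter_not (s := I) fun j => Good f O I k z s j
    obtain ⟨J, hJ, hJw⟩ := exists_subset_card_eq
      (s := I.filter fun j => ¬ Good f O I k z s j) (n := w) (by simp only [D] at hc; omega)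
    exact ⟨J, hJ.trans (filter_subset _ _), hJw, fun T hT => (hcl T (hT.trans hJ)).1⟩
  have hc : ∀ j, ∃ c, j ∈ D → c ≠ z j ∧ c ≠ pos f z s j ∧ ∀ π : Fin d → Equiv.Perm (Fin q),
      Avail π f z s → ¬ Rare π f O I k z s → π j (z j) < π j c := by
    intro j
    by_cases hj : j ∈ D
    · obtain ⟨c, hc⟩ := (mem_filter.1 hj).2
      exact ⟨c, fun _ => hc⟩
    · exact ⟨s, fun a => absurd a hj⟩
  choose c hc using hc
  exact first_bound hf hs _ D c (fun i hi => ⟨(hc i hi).1, (hc i hi).2.1⟩)
    (fun π hπ => ⟨hπ.1, fun i hi => (hc i hi).2.2 π hπ.1 hπ.2⟩) hD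

end Pool.Agent.Work.MP_85f59e_co.U
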