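import Pool.Agent.Work.MP_85f59e_co.U.Count

namespace Pool.Agent.Work.MP_85f59e_co.U

open Finset Function Pool.Agent.Work.MP_85f59e_co
open scoped BigOperators

lemma choose_small (L : ℕ) : ((51 * L).choose (50 * L) : ℝ) ≤ 153 ^ L := by
  rw [show 51 * L = 50 * L + L by ring, Nat.choose_symm_add, show 50 * L + L = 51 * L by ring]
  have h1 : ((51 * L).choose L : ℝ) ≤ ((51 * L : ℕ) : ℝ) ^ L / L.factorial :=
    Nat.choose_le_pow_div L (51 * L)
  have h2 : (L : ℝ) ^ L / L.factorial ≤ Real.exp L := Real.pow_div_factorial_le_exp _ (by positivity) L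
  have h3 : Real.exp L ≤ 3 ^ L := by
    rw [← Real.exp_one_pow]
    exact pow_le_pow_left₀ (Real.exp_pos _).le Real.exp_one_lt_three.le L
  calc _ ≤ _ := h1
    _ = 51 ^ L * ((L : ℝ) ^ L / L.factorial) := by push_cast; rw [mul_pow]; ring
    _ ≤ 51 ^ L * 3 ^ L := by gcongr; exact h2.trans h3
    _ = _ := by rw [← mul_pow]; norm_num

lemma choose_big {L : ℕ} (hL : 1 ≤ L) :
    (2048 : ℝ) ^ L ≤ 12 * ((12 * L).choose (2 * (3 * L - 1) + 2) : ℝ) := by
  have h1 := Nat.four_pow_le_two_mul_self_mul_centralBinom (6 * L) (by omega)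
  rw [Nat.centralBinom_eq_two_mul_choose, show 2 * (6 * L) = 12 * L by ring] at h1
  rw [show 2 * (3 * L - 1) + 2 = 6 * L by omega]
  have h2 : (4 : ℝ) ^ (6 * L) ≤ 12 * L * ((12 * L).choose (6 * L) : ℝ) := by exact_mod_cast h1
  have h3 : (L : ℝ) ≤ 2 ^ L := by exact_mod_cast (Nat.lt_two_pow_self (n := L)).le
  have h4 : (4 : ℝ) ^ (6 * L) = 2 ^ L * 2048 ^ L := by rw [pow_mul, ← mul_pow]; norm_num
  have h5 : (0 : ℝ) < 2 ^ L := by positivity
  have h6 : (0 : ℝ) ≤ ((12 * L).choose (6 * L) : ℝ) := by positivity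
  refine le_of_mul_le_mul_left ?_ h5
  calc (2 : ℝ) ^ L * 2048 ^ L ≤ 12 * L * ((12 * L).choose (6 * L) : ℝ) := by rw [← h4]; exact h2
    _ ≤ 12 * 2 ^ L * ((12 * L).choose (6 * L) : ℝ) := by gcongr
    _ = _ := by ring

lemma upper_scale {d q L : ℕ} (hq : 2 ≤ q) (hL : 231 * L ≤ d) :
    ((latinSet d q).card : ℝ)
      ≤ Real.exp (Real.log 2 * ((1 + 52 * (q : ℝ) ^ 2 * (2 / 3) ^ L) * ((q : ℝ) / 2) ^ d)) := by
  have hq2 : (2 : ℝ) ≤ q := by exact_mod_cast hq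
  have hl : (1 / 2 : ℝ) ≤ Real.log 2 := by linarith [Real.log_two_gt_d9]
  have hX : 0 ≤ ((q : ℝ) / 2) ^ d := by positivity
  rcases Nat.eq_zero_or_pos L with rfl | hL1
  · refine (explicit_bound (by omega)).trans ?_
    gcongr
    nlinarith
  let O : Finset (Fin d) := univ.filter fun i => i.val < d - 51 * L
  let I : Finset (Fin d) := univ.filter fun i => ¬ i.val < d - 51 * L
  have hO : O.card = d - 51 * L := by
    simp only [O]
    rw [Fin.card_filter_val_lt]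
    omega
  have hI : I.card = 51 * L := by
    have := card_filter_add_card_filter_not (s := (univ : Finset (Fin d)))
      fun i => i.val < d - 51 * L
    rw [card_univ, Fintype.card_fin] at this
    change O.card + I.card = d at this
    omega
  have hOI : ∀ i ∈ O, ∀ j ∈ I, i < j := by
    intro i hi j hj
    have a1 := (mem_filter.1 hi).2
    have a2 := (mem_filter.1 hj).2
    rw [Fin.lt_def]
    omega
  refine (main_boundU hq hOI (k := 90 * L) (by omega) (by omega) (w := 50 * L) (m := L)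
    (by omega) (r := 12 * L) (t := 3 * L - 1) (by omega) (K := 2 ^ L) (by positivity)).trans ?_
  rw [hI, Real.exp_le_exp, mul_comm (1 + 52 * (q : ℝ) ^ 2 * (2 / 3) ^ L),
    mul_left_comm (Real.log 2) (((q : ℝ) / 2) ^ d)]
  refine mul_le_mul_of_nonneg_left ?_ hX
  set x : ℝ := (2 / 3) ^ L with hx
  have hx0 : 0 ≤ x := by positivity
  have hp : ∀ y : ℝ, 0 ≤ y → y ≤ 2 / 3 → y ^ L ≤ x := fun y h1 h2 => pow_le_pow_left₀ h1 h2 L
  have h2L : (1 : ℝ) ≤ 2 ^ L := one_le_pow₀ one_le_two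
  have e1 : Real.log (2 + 2 ^ L) ≤ 2 * 2 ^ L := by
    have := Real.log_le_sub_one_of_pos (x := 2 + 2 ^ L) (by positivity)
    linarith
  have hC : (0 : ℝ) < ((12 * L).choose (2 * (3 * L - 1) + 2) : ℝ) := by
    exact_mod_cast Nat.choose_pos (by omega)
  have e2 : (q : ℝ) ^ 2 / ((12 * L).choose (2 * (3 * L - 1) + 2) : ℝ)
      ≤ 12 * (q : ℝ) ^ 2 * (1 / 2048) ^ L := by
    rw [div_le_iff₀ hC, one_div, inv_pow]
    have := choose_big hL1
    have h5 : (0 : ℝ) < 2048 ^ L := by positivity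
    calc (q : ℝ) ^ 2 = (q : ℝ) ^ 2 * (2048 ^ L)⁻¹ * 2048 ^ L := by field_simp
      _ ≤ (q : ℝ) ^ 2 * (2048 ^ L)⁻¹ * (12 * ((12 * L).choose (2 * (3 * L - 1) + 2) : ℝ)) := by
          gcongr
      _ = _ := by ring
  have t1 : Real.log (2 + 2 ^ L) * (((51 * L).choose (50 * L) : ℝ) *
      ((q : ℝ) ^ 2 / ((12 * L).choose (2 * (3 * L - 1) + 2) : ℝ))) ≤ 24 * (q : ℝ) ^ 2 * x := by
    calc _ ≤ 2 * 2 ^ L * (153 ^ L * (12 * (q : ℝ) ^ 2 * (1 / 2048) ^ L)) := by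
          gcongr
          exact choose_small L
      _ = 24 * (q : ℝ) ^ 2 * (2 * 153 * (1 / 2048)) ^ L := by rw [mul_pow, mul_pow]; ring
      _ ≤ _ := by
          gcongr 24 * (q : ℝ) ^ 2 * ?_
          exact hp _ (by norm_num) (by norm_num)
  have t2 : 1 / (1 + (2 : ℝ) ^ L) ≤ x := by
    calc _ ≤ 1 / (2 : ℝ) ^ L := by gcongr; linarith
      _ = (1 / 2) ^ L := by rw [one_div_pow]
      _ ≤ x := hp _ (by norm_num) (by norm_num)
  have t3 : (2 : ℝ) ^ (51 * L) * q * (2 / 3) ^ (90 * L) ≤ q * x := by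
    calc _ = q * (2 ^ 51 * (2 / 3 : ℝ) ^ 90) ^ L := by rw [pow_mul, pow_mul, mul_pow]; ring
      _ ≤ _ := by
          gcongr q * ?_
          exact hp _ (by norm_num) (by norm_num)
  have t4 : (2 : ℝ) ^ (12 * L) * (5 / 6) ^ (50 * L) ≤ x := by
    calc _ = (2 ^ 12 * (5 / 6 : ℝ) ^ 50) ^ L := by rw [pow_mul, pow_mul, mul_pow]
      _ ≤ _ := hp _ (by norm_num) (by norm_num)
  have hq0 : (0 : ℝ) ≤ q := by linarith
  have hqx : 2 * (q * x) ≤ (q : ℝ) ^ 2 * x := by nlinarith [mul_nonneg hq0 hx0]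
  have hqx0 : 0 ≤ q * x := mul_nonneg hq0 hx0
  have t2' : q * (1 / (1 + (2 : ℝ) ^ L)) ≤ q * x := by gcongr
  have t5 : q * (x + (2 : ℝ) ^ (51 * L) * q * (2 / 3) ^ (90 * L)
      + 2 ^ (12 * L) * (5 / 6) ^ (50 * L)) ≤ 2 * ((q : ℝ) ^ 2 * x) := by
    calc _ ≤ q * (x + q * x + x) := by gcongr
      _ = 2 * (q * x) + (q : ℝ) ^ 2 * x := by ring
      _ ≤ _ := by linarith
  have t6 := mul_le_mul_of_nonneg_left t5 (by linarith : 0 ≤ Real.log 2)
  have t7 : 25 * ((q : ℝ) ^ 2 * x) ≤ Real.log 2 * (50 * ((q : ℝ) ^ 2 * x)) := by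
    have : 0 ≤ (q : ℝ) ^ 2 * x := by positivity
    nlinarith
  nlinarith

theorem uniform_upper (q n : ℕ) (hq : 2 ≤ q) (hn : 1 ≤ n) :
    Real.logb 2 (numMDS q n)
      ≤ (1 + 100 * (q : ℝ) ^ 2 * (999 / 1000) ^ n) * ((q : ℝ) / 2) ^ (n - 1) := by
  obtain ⟨d, rfl⟩ : ∃ d, n = d + 1 := ⟨n - 1, by omega⟩
  rw [numMDS_eq, Nat.add_sub_cancel]
  have h := upper_scale (d := d) (L := d / 231) hq (by omega)
  refine (logb_le_of_le_exp (by positivity) h).trans ?_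
  gcongr (1 + ?_) * _
  have h1 : (2 / 3 : ℝ) ^ (d / 231 + 1) ≤ (999 / 1000) ^ (d + 1) := by
    calc (2 / 3 : ℝ) ^ (d / 231 + 1) ≤ ((999 / 1000) ^ 231) ^ (d / 231 + 1) :=
          pow_le_pow_left₀ (by norm_num) (by norm_num) _
      _ = (999 / 1000) ^ (231 * (d / 231 + 1)) := by rw [pow_mul]
      _ ≤ _ := pow_le_pow_of_le_one (by norm_num) (by norm_num) (by omega)
  rw [pow_succ] at h1
  have h2 : (0 : ℝ) ≤ (q : ℝ) ^ 2 := by positivity
  have h3 : (0 : ℝ) ≤ (999 / 1000) ^ (d + 1) := by positivity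
  nlinarith [mul_le_mul_of_nonneg_left h1 h2, mul_nonneg h2 h3]

end Pool.Agent.Work.MP_85f59e_co.U
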